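import Mathlib

/-!
# The survival number of hyperbolic vertex-transitive graphs

If an infinite, connected, locally finite, vertex-transitive, hyperbolic graph has finite survival
number, then it has linear growth.

Proof: if `s(G)` is finite, then there is `n` such that for every `D` there is a finite set `T` of
at least `n` sites at pairwise distance greater than `D`, fewer than `n` of which have infinite
cells.  Let `w` be a site with finite cell.  All vertices outside of a finite set are at least as
close to one of the fewer than `n` sites with infinite cells as to `w`.  By hyperbolicity a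
geodesic from `w` to such a vertex starts near one of fewer than `n` geodesics from `w` to these
sites.  By vertex-transitivity and hyperbolicity, every vertex at distance `r` from `w` is near a
geodesic from `w` to a vertex far away.  So the spheres have bounded size.
-/

namespace Pool.Agent.Results.MP_5fb5c8_co.HyperbolicSurvival

open SimpleGraph

/-! ### Definitions -/

section Defs

variable {V : Type*} (G : SimpleGraph V)

/-- `G` is vertex-transitive. -/
def VertexTransitive : Prop := ∀ u v : V, ∃ φ : G ≃g G, φ u = v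

/-- `G` is locally finite. -/
def LocFinite : Prop := ∀ v : V, (G.neighborSet v).Finite

/-- The Voronoi cell of `v`. -/
def cell (T : Finset V) (v : V) : Set V := {u | ∀ v' ∈ T, G.dist u v ≤ G.dist u v'}

/-- The family of the finite sets of at least `n` sites with pairwise distances greater than
`D`. -/
def Sites (D n : ℕ) (T : Finset V) : Prop :=
  n ≤ T.card ∧ ∀ v₁ ∈ T, ∀ v₂ ∈ T, v₁ ≠ v₂ → D < G.dist v₁ v₂

/-- The number of sites with infinite cells. -/
noncomputable def numInfinite (T : Finset V) : ℕ := {v | v ∈ T ∧ (cell G T v).Infinite}.ncard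

/-- The survival number, an element of `ℕ ∪ {∞}`. -/
noncomputable def survival : ℕ∞ :=
  sSup {n : ℕ∞ | ∃ m : ℕ, 1 ≤ m ∧ n = m ∧ ∃ D : ℕ, ∀ T, Sites G D m T → m ≤ numInfinite G T}

/-- `G` is hyperbolic: for some `δ` every vertex on a side of a geodesic triangle is within distance
`δ` from a vertex on one of the other two sides. -/
def Hyperbolic : Prop := ∃ δ : ℕ, ∀ (x y z : V) (p : G.Walk x y) (q : G.Walk x z) (r : G.Walk z y),
  p.length = G.dist x y → q.length = G.dist x z → r.length = G.dist z y →
  ∀ a ∈ p.support, ∃ b, (b ∈ q.support ∨ b ∈ r.support) ∧ G.dist a b ≤ δ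

/-- `G` has linear growth: the sizes of balls are bounded by a linear function of the radius. -/
def LinearGrowth : Prop := ∃ a b : ℕ, ∀ (v : V) (r : ℕ),
  {u | G.dist u v ≤ r}.encard ≤ ((a * r + b : ℕ) : ℕ∞)

end Defs

/-! ### Geodesics and balls -/

section Geodesics

variable {V : Type*} {G : SimpleGraph V}

theorem dist_getVert_le {u v : V} (p : G.Walk u v) (i j : ℕ) (hij : i ≤ j) (hj : j ≤ p.length)
    (hc : G.Connected) : G.dist (p.getVert i) (p.getVert j) ≤ j - i := by
  induction j with
  | zero =>
    obtain rfl : i = 0 := by omega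
    simp
  | succ j ih =>
    rcases Nat.lt_or_ge j i with h | h
    · obtain rfl : i = j + 1 := by omega
      simp
    · have h1 := ih h (by omega)
      have h2 := p.adj_getVert_succ (i := j) (by omega)
      have h3 := hc.dist_triangle (u := p.getVert i) (v := p.getVert j) (w := p.getVert (j + 1))
      have h4 := dist_eq_one_iff_adj.2 h2
      omega

theorem dist_getVert {u v : V} (p : G.Walk u v) (hp : p.length = G.dist u v) (i j : ℕ)
    (hij : i ≤ j) (hj : j ≤ p.length) (hc : G.Connected) :
    G.dist (p.getVert i) (p.getVert j) = j - i := by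
  apply le_antisymm (dist_getVert_le p i j hij hj hc)
  have h1 := dist_getVert_le p 0 i (Nat.zero_le i) (by omega) hc
  have h2 := dist_getVert_le p j p.length hj le_rfl hc
  rw [p.getVert_zero] at h1
  rw [p.getVert_length] at h2
  have h3 := hc.dist_triangle (u := u) (v := p.getVert i) (w := v)
  have h4 := hc.dist_triangle (u := p.getVert i) (v := p.getVert j) (w := v)
  omega

theorem dist_support {u v w : V} (p : G.Walk u v) (hp : p.length = G.dist u v)
    (hw : w ∈ p.support) (hc : G.Connected) : G.dist u w + G.dist w v = G.dist u v := by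
  obtain ⟨i, rfl, hi⟩ := Walk.mem_support_iff_exists_getVert.1 hw
  have h1 := dist_getVert p hp 0 i (Nat.zero_le i) hi hc
  have h2 := dist_getVert p hp i p.length hi le_rfl hc
  rw [p.getVert_zero] at h1
  rw [p.getVert_length] at h2
  omega

/-- A geodesic through a vertex between the ends. -/
theorem exists_geodesic {u v w : V} (hc : G.Connected) (h : G.dist u w + G.dist w v = G.dist u v) :
    ∃ p : G.Walk u v, p.length = G.dist u v ∧ w ∈ p.support := by
  obtain ⟨p, hp⟩ := hc.exists_walk_length_eq_dist u w
  obtain ⟨q, hq⟩ := hc.exists_walk_length_eq_dist w v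
  refine ⟨p.append q, ?_, ?_⟩
  · rw [Walk.length_append, hp, hq, h]
  · rw [Walk.mem_support_append_iff]
    exact Or.inl p.end_mem_support

theorem ball_finite (hc : G.Connected) (hf : LocFinite G) (v : V) (r : ℕ) :
    {u | G.dist u v ≤ r}.Finite := by
  induction r with
  | zero =>
    apply (Set.finite_singleton v).subset
    intro u hu
    have : G.dist u v = 0 := Nat.le_zero.1 hu
    exact hc.dist_eq_zero_iff.1 this
  | succ r ih =>
    apply (ih.union (ih.biUnion fun w _ => hf w)).subset
    intro u hu
    rcases Nat.lt_or_ge (G.dist u v) (r + 1) with h | h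
    · exact Or.inl (Nat.lt_succ_iff.1 h)
    · right
      have h1 : G.dist u v = r + 1 := le_antisymm hu h
      obtain ⟨p, hp⟩ := hc.exists_walk_length_eq_dist u v
      have h2 := p.adj_getVert_succ (i := 0) (by omega)
      rw [p.getVert_zero, zero_add] at h2
      have h3 := dist_getVert p hp 1 p.length (by omega) le_rfl hc
      rw [p.getVert_length] at h3
      refine Set.mem_biUnion (x := p.getVert 1) ?_ h2.symm
      change G.dist (p.getVert 1) v ≤ r
      omega

theorem exists_far [Infinite V] (hc : G.Connected) (hf : LocFinite G) (v : V) (r : ℕ) :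
    ∃ u, r < G.dist u v := by
  by_contra hcon
  push Not at hcon
  have h := ball_finite hc hf v r
  rw [Set.eq_univ_of_forall (s := {u | G.dist u v ≤ r}) hcon] at h
  exact Set.infinite_univ h

theorem dist_map_le (hc : G.Connected) (φ : G ≃g G) (u v : V) :
    G.dist (φ u) (φ v) ≤ G.dist u v := by
  obtain ⟨p, hp⟩ := hc.exists_walk_length_eq_dist u v
  rw [← hp, ← Walk.length_map φ.toHom p]
  exact dist_le _

theorem dist_map (hc : G.Connected) (φ : G ≃g G) (u v : V) :
    G.dist (φ u) (φ v) = G.dist u v := by
  apply le_antisymm (dist_map_le hc φ u v)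
  have := dist_map_le hc φ.symm (φ u) (φ v)
  simpa using this

/-- Every vertex is the midpoint of a geodesic of length `2L`. -/
theorem exists_midpoint [Infinite V] (hc : G.Connected) (hf : LocFinite G)
    (ht : VertexTransitive G) (x : V) (L : ℕ) :
    ∃ y₁ y₂, G.dist y₁ x = L ∧ G.dist x y₂ = L ∧ G.dist y₁ y₂ = 2 * L := by
  obtain ⟨a, b, c, h1, h2, h3⟩ : ∃ a b c, G.dist a b = L ∧ G.dist b c = L ∧
      G.dist a c = 2 * L := by
    obtain ⟨u, hu⟩ := exists_far hc hf x (2 * L)
    obtain ⟨p, hp⟩ := hc.exists_walk_length_eq_dist u x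
    refine ⟨p.getVert 0, p.getVert L, p.getVert (2 * L), ?_, ?_, ?_⟩
    · rw [dist_getVert p hp 0 L (by omega) (by omega) hc]
      omega
    · rw [dist_getVert p hp L (2 * L) (by omega) (by omega) hc]
      omega
    · rw [dist_getVert p hp 0 (2 * L) (by omega) (by omega) hc]
      omega
  obtain ⟨φ, hφ⟩ := ht b x
  refine ⟨φ a, φ c, ?_, ?_, ?_⟩
  · rw [← hφ, dist_map hc, h1]
  · rw [← hφ, dist_map hc, h2]
  · rw [dist_map hc, h3]

end Geodesics

/-! ### The proof -/

section Main

variable {V : Type*} {G : SimpleGraph V}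

/-- If the survival number is finite, then some vertex (hence every vertex) is dominated by few far
away vertices. -/
theorem exists_dominated (hc : G.Connected) (ht : VertexTransitive G)
    (hs : survival G ≠ ⊤) : ∃ n : ℕ, ∀ (D : ℕ) (o : V), ∃ A : Finset V, A.card ≤ n ∧
      (∀ a ∈ A, D < G.dist o a) ∧ ∃ K : Set V, K.Finite ∧
        ∀ u ∉ K, ∃ a ∈ A, G.dist u a ≤ G.dist u o := by
  classical
  obtain ⟨N, hN⟩ := ENat.ne_top_iff_exists.1 hs
  refine ⟨N + 1, fun D o => ?_⟩
  -- a bad set of sites
  obtain ⟨T, hT, hI⟩ : ∃ T, Sites G D (N + 1) T ∧ numInfinite G T < N + 1 := by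
    by_contra hcon
    push Not at hcon
    have h1 : ((N + 1 : ℕ) : ℕ∞) ≤ survival G := by
      apply le_sSup
      exact ⟨N + 1, by omega, rfl, D, fun T hT => hcon T hT⟩
    rw [← hN] at h1
    have h2 : N + 1 ≤ N := by exact_mod_cast h1
    omega
  let I : Finset V := T.filter fun v => (cell G T v).Infinite
  have hIcard : I.card = numInfinite G T := by
    unfold numInfinite
    rw [← Set.ncard_coe_finset]
    congr 1
    ext v
    simp [I]
  obtain ⟨w, hwT, hwI⟩ : ∃ w ∈ T, w ∉ I := by
    by_contra hcon
    push Not at hcon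
    have h1 : T ⊆ I := hcon
    have h2 := Finset.card_le_card h1
    have h3 := hT.1
    omega
  have hwne : ∀ a ∈ I, w ≠ a := fun a ha h => hwI (h ▸ ha)
  obtain ⟨φ, hφ⟩ := ht w o
  refine ⟨I.image φ, Finset.card_image_le.trans (by omega), ?_, ?_⟩
  · intro a ha
    obtain ⟨a', ha', rfl⟩ := Finset.mem_image.1 ha
    rw [← hφ, dist_map hc]
    exact hT.2 w hwT a' (Finset.mem_filter.1 ha').1 (hwne a' ha')
  · refine ⟨φ '' (⋃ v ∈ (T \ I), cell G T v), ?_, ?_⟩
    · apply Set.Finite.image
      apply Set.Finite.biUnion (Finset.finite_toSet _)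
      intro v hv
      have hv' := Finset.mem_sdiff.1 hv
      by_contra hinf
      exact hv'.2 (Finset.mem_filter.2 ⟨hv'.1, hinf⟩)
    · intro u hu
      -- a nearest site
      obtain ⟨v, hvT, hv⟩ := T.exists_min_image (fun v => G.dist (φ.symm u) v) ⟨w, hwT⟩
      have hcell : φ.symm u ∈ cell G T v := fun v' hv' => hv v' hv'
      have hvI : v ∈ I := by
        by_contra hvI
        apply hu
        refine ⟨φ.symm u, Set.mem_biUnion (x := v) (Finset.mem_sdiff.2 ⟨hvT, hvI⟩) hcell, ?_⟩
        simp
      refine ⟨φ v, Finset.mem_image_of_mem _ hvI, ?_⟩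
      have h1 := hv w hwT
      rw [← hφ]
      have h2 := dist_map hc φ (φ.symm u) v
      have h3 := dist_map hc φ (φ.symm u) w
      rw [RelIso.apply_symm_apply] at h2 h3
      omega

/-- The vertices at distance `r` from `o` are near few vertices. -/
theorem exists_cover [Infinite V] (hc : G.Connected) (hf : LocFinite G)
    (ht : VertexTransitive G) {δ : ℕ}
    (hδ : ∀ (x y z : V) (p : G.Walk x y) (q : G.Walk x z) (r : G.Walk z y),
      p.length = G.dist x y → q.length = G.dist x z → r.length = G.dist z y →
      ∀ a ∈ p.support, ∃ b, (b ∈ q.support ∨ b ∈ r.support) ∧ G.dist a b ≤ δ)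
    {n : ℕ} (o : V) (r : ℕ) (hdom : ∃ A : Finset V, A.card ≤ n ∧
      (∀ a ∈ A, 2 * r + 4 * δ < G.dist o a) ∧ ∃ K : Set V, K.Finite ∧
        ∀ u ∉ K, ∃ a ∈ A, G.dist u a ≤ G.dist u o) :
    ∃ C : Finset V, C.card ≤ n ∧ ∀ x, G.dist o x = r → ∃ c ∈ C, G.dist x c ≤ 4 * δ := by
  classical
  obtain ⟨A, hA, hfar, K, hK, hKA⟩ := hdom
  choose γ hγ using fun a => hc.exists_walk_length_eq_dist o a
  refine ⟨A.image fun a => (γ a).getVert r, Finset.card_image_le.trans hA, ?_⟩
  intro x hx
  -- the exceptional set is contained in a ball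
  obtain ⟨L, hL⟩ : ∃ L, ∀ u ∈ K, G.dist o u < L := by
    obtain ⟨L, hL⟩ := (hK.image fun u => G.dist o u).bddAbove
    exact ⟨L + 1, fun u hu => Nat.lt_succ_iff.2 (hL ⟨u, hu, rfl⟩)⟩
  obtain ⟨y₁, y₂, h1, h2, h3⟩ := exists_midpoint hc hf ht x (L + r)
  -- `x` is near a geodesic from `o` to some `y` which is far away
  obtain ⟨y, b, hy, hb, hxb⟩ : ∃ y b, y ∉ K ∧ G.dist o b + G.dist b y = G.dist o y ∧
      G.dist x b ≤ δ := by
    obtain ⟨p, hp, hxp⟩ := exists_geodesic hc (u := y₁) (v := y₂) (w := x) (by omega)
    obtain ⟨q, hq⟩ := hc.exists_walk_length_eq_dist y₁ o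
    obtain ⟨s, hs⟩ := hc.exists_walk_length_eq_dist o y₂
    obtain ⟨b, hb, hxb⟩ := hδ y₁ y₂ o p q s hp hq hs x hxp
    rcases hb with hb | hb
    · refine ⟨y₁, b, ?_, ?_, hxb⟩
      · intro hy
        have h4 := hL _ hy
        have h5 := hc.dist_triangle (u := y₁) (v := o) (w := x)
        rw [SimpleGraph.dist_comm (u := y₁) (v := o)] at h5
        omega
      · have := dist_support q hq hb hc
        rw [SimpleGraph.dist_comm (u := o) (v := b), SimpleGraph.dist_comm (u := b) (v := y₁),
          SimpleGraph.dist_comm (u := o) (v := y₁)]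
        omega
    · refine ⟨y₂, b, ?_, dist_support s hs hb hc, hxb⟩
      intro hy
      have h4 := hL _ hy
      have h5 := hc.dist_triangle (u := x) (v := o) (w := y₂)
      rw [SimpleGraph.dist_comm (u := x) (v := o)] at h5
      omega
  obtain ⟨a, ha, hya⟩ := hKA y hy
  have haD := hfar a ha
  refine ⟨(γ a).getVert r, Finset.mem_image_of_mem _ ha, ?_⟩
  -- `b` is near the geodesic from `o` to `a`
  obtain ⟨p, hp, hbp⟩ := exists_geodesic hc hb
  obtain ⟨s, hs⟩ := hc.exists_walk_length_eq_dist a y
  obtain ⟨c, hcs, hbc⟩ := hδ o y a p (γ a) s hp (hγ a) hs b hbp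
  have hb1 : G.dist o b ≤ r + δ := by
    have := hc.dist_triangle (u := o) (v := x) (w := b)
    omega
  have hb2 : r ≤ G.dist o b + δ := by
    have := hc.dist_triangle (u := o) (v := b) (w := x)
    rw [SimpleGraph.dist_comm (u := b) (v := x)] at this
    omega
  rcases hcs with hcs | hcs
  · -- on the geodesic from `o` to `a`
    obtain ⟨j, rfl, hj⟩ := Walk.mem_support_iff_exists_getVert.1 hcs
    have h4 := dist_getVert (γ a) (hγ a) 0 j (Nat.zero_le j) hj hc
    rw [(γ a).getVert_zero] at h4
    have h5 : j ≤ r + 2 * δ := by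
      have := hc.dist_triangle (u := o) (v := b) (w := (γ a).getVert j)
      omega
    have h6 : r ≤ j + 2 * δ := by
      have := hc.dist_triangle (u := o) (v := (γ a).getVert j) (w := b)
      rw [SimpleGraph.dist_comm (u := (γ a).getVert j) (v := b)] at this
      omega
    have h7 : G.dist ((γ a).getVert j) ((γ a).getVert r) ≤ 2 * δ := by
      have hlen := hγ a
      rcases le_total j r with h8 | h8
      · have := dist_getVert_le (γ a) j r h8 (by omega) hc
        omega
      · have := dist_getVert_le (γ a) r j h8 hj hc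
        rw [SimpleGraph.dist_comm]
        omega
    have h8 := hc.dist_triangle (u := x) (v := b) (w := (γ a).getVert j)
    have h9 := hc.dist_triangle (u := x) (v := (γ a).getVert j) (w := (γ a).getVert r)
    omega
  · -- on the geodesic from `a` to `y`: impossible
    exfalso
    have h4 := dist_support s hs hcs hc
    have h5 := hc.dist_triangle (u := o) (v := b) (w := a)
    have h6 := hc.dist_triangle (u := b) (v := c) (w := a)
    have h7 := hc.dist_triangle (u := b) (v := c) (w := y)
    rw [SimpleGraph.dist_comm (u := c) (v := a)] at h6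
    rw [SimpleGraph.dist_comm (u := y) (v := a), SimpleGraph.dist_comm (u := y) (v := o)] at hya
    omega

theorem linear_growth [Infinite V] (hc : G.Connected) (hf : LocFinite G)
    (ht : VertexTransitive G) (hh : Hyperbolic G) (hs : survival G ≠ ⊤) : LinearGrowth G := by
  classical
  obtain ⟨δ, hδ⟩ := hh
  obtain ⟨n, hn⟩ := exists_dominated hc ht hs
  obtain ⟨v0⟩ := hc.nonempty
  -- the size of the balls of radius `4δ`
  let β : ℕ := {u | G.dist u v0 ≤ 4 * δ}.ncard
  have hβ : ∀ v, {u | G.dist u v ≤ 4 * δ}.encard ≤ (β : ℕ∞) := by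
    intro v
    obtain ⟨φ, hφ⟩ := ht v v0
    have h1 : {u | G.dist u v ≤ 4 * δ}.encard = {u | G.dist u v0 ≤ 4 * δ}.encard := by
      rw [← φ.injective.encard_image]
      congr 1
      ext u
      simp only [Set.mem_image, Set.mem_ofPred_eq]
      constructor
      · rintro ⟨u', hu', rfl⟩
        rw [← hφ, dist_map hc]
        exact hu'
      · intro hu
        refine ⟨φ.symm u, ?_, by simp⟩
        have h2 := dist_map hc φ (φ.symm u) v
        rw [RelIso.apply_symm_apply, hφ] at h2
        omega
    rw [h1, (ball_finite hc hf v0 (4 * δ)).cast_ncard_eq.symm]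
  have hsphere : ∀ (o : V) (r : ℕ), {u | G.dist u o = r}.encard ≤ ((n * β : ℕ) : ℕ∞) := by
    intro o r
    obtain ⟨C, hC, hcov⟩ := exists_cover hc hf ht hδ o r (hn _ o)
    have h1 : {u | G.dist u o = r} ⊆ ⋃ c ∈ C, {u | G.dist u c ≤ 4 * δ} := by
      intro u hu
      obtain ⟨c, hc1, hc2⟩ := hcov u (by rw [SimpleGraph.dist_comm]; exact hu)
      exact Set.mem_biUnion hc1 hc2
    have h2 : ∀ C : Finset V, (⋃ c ∈ C, {u | G.dist u c ≤ 4 * δ}).encard ≤
        ((C.card * β : ℕ) : ℕ∞) := by
      intro C
      induction C using Finset.induction_on with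
      | empty => simp
      | insert c C hcC ih =>
        rw [Finset.set_biUnion_insert, Finset.card_insert_of_notMem hcC]
        refine (Set.encard_union_le _ _).trans ?_
        have e : (((C.card + 1) * β : ℕ) : ℕ∞) = (β : ℕ∞) + ((C.card * β : ℕ) : ℕ∞) := by
          push_cast
          ring
        rw [e]
        exact add_le_add (hβ c) ih
    refine (Set.encard_le_encard h1).trans ((h2 C).trans ?_)
    exact_mod_cast Nat.mul_le_mul_right β hC
  refine ⟨n * β, n * β, fun v r => ?_⟩
  induction r with
  | zero =>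
    have h1 : {u | G.dist u v ≤ 0} = {u | G.dist u v = 0} := by
      ext u
      simp only [Set.mem_ofPred_eq]
      omega
    rw [h1, mul_zero, zero_add]
    exact hsphere v 0
  | succ r ih =>
    have h1 : {u | G.dist u v ≤ r + 1} = {u | G.dist u v ≤ r} ∪ {u | G.dist u v = r + 1} := by
      ext u
      simp only [Set.mem_union, Set.mem_ofPred_eq]
      omega
    rw [h1]
    refine (Set.encard_union_le _ _).trans ?_
    have e : ((n * β * (r + 1) + n * β : ℕ) : ℕ∞) =
        ((n * β * r + n * β : ℕ) : ℕ∞) + ((n * β : ℕ) : ℕ∞) := by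
      push_cast
      ring
    rw [e]
    exact add_le_add ih (hsphere v (r + 1))

end Main

/-- An infinite, connected, locally finite, vertex-transitive graph which is hyperbolic and does not
have linear growth has infinite survival number. -/
theorem result (V : Type*) [Infinite V] (G : SimpleGraph V) (hc : G.Connected)
    (hf : LocFinite G) (ht : VertexTransitive G) (hh : Hyperbolic G) (hg : ¬ LinearGrowth G) :
    survival G = ⊤ := by
  by_contra hs
  exact hg (linear_growth hc hf ht hh hs)

end Pool.Agent.Results.MP_5fb5c8_co.HyperbolicSurvival
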